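import Pool.Agent.Lib.MP_7ad892_an.Main
import Pool.Agent.Lib.MP_7ad892_an.Exist

/-!
# MP_7ad892_an : approximately local derivations on semicrossed products are derivations

For every dynamical system `(Ω, σ)` (`Ω` locally compact Hausdorff, `σ` continuous and proper) and
the universal Toeplitz representation `ρ = (π, t)` of the C*-correspondence `X` of `(Ω, σ)`, every
approximately local derivation of `C₀(Ω) ×_σ ℤ⁺` is a derivation.

(A universal Toeplitz representation exists for every dynamical system: see
`MP_7ad892_an.uRep_isUniversal` in `Pool/Agent/Lib/MP_7ad892_an/Exist.lean`.)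
-/

namespace Pool.Agent.Results.MP_7ad892_an.ApproxLocalDer

universe u

theorem result (Ω : Type u) [TopologicalSpace Ω] [T2Space Ω] [LocallyCompactSpace Ω]
    (σ : Ω → Ω) (hσ : IsProperMap σ) (B : Type u) [NonUnitalCStarAlgebra B]
    (ρ : _root_.MP_7ad892_an.ToeplitzRep hσ B) (hρ : ρ.IsUniversal)
    (δ : ρ.semicrossed →L[ℂ] ρ.semicrossed) (hδ : _root_.MP_7ad892_an.IsApproxLocalDer δ) :
    _root_.MP_7ad892_an.IsDer δ :=
  _root_.MP_7ad892_an.main hρ δ hδ

end Pool.Agent.Results.MP_7ad892_an.ApproxLocalDer
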